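import Pool.Agent.helper35.DR.SpecP

/-!
# Project dr:, module PCA: case (a)
-/

set_option autoImplicit false

namespace Pool.Agent.DR

open Pool.Agent.helper58.DC Pool.Agent.DI

/-- The set of the pairs of a block whose stabiliser covers `A` is finite. -/
theorem PCA_fin (hB2 : Pool.Agent.DI.B2_stmt) {G E A : Type} [Group G] [Group E] [Group A]
    [Finite G] (X : Extension G E A) (p : ℕ) (M : Ideal (integralClosure ℤ ℂ)) (χ : G → ℂ) :
    {x : Finset (Subgroup G) × (G → ℂ) | IsPair p M χ x ∧ Vx X x = ⊤}.Finite := by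
  have h1 : (⋃ C : Finset (Subgroup G), (fun ψ => (C, ψ)) '' (IrrOn (nrm C))).Finite :=
    Set.finite_iUnion fun C => ((hB2 G (nrm C)).1).image _
  refine h1.subset ?_
  rintro ⟨C, ψ⟩ ⟨⟨-, h2, -⟩, -⟩
  exact Set.mem_iUnion.2 ⟨C, ψ, h2, rfl⟩

/-- A sum over a finite set. -/
theorem PCA_sum0 {α : Type} (S : Set α) [Fintype S] (f : α → ℤ) :
    ∑ᶠ x ∈ S, f x = ∑ x : S, f x := by
  rw [← finsum_eq_sum_of_fintype, finsum_set_coe_eq_finsum_mem (s := S) (f := f)]

/-- A sum over a smaller set as a sum with a condition. -/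
theorem PCA_sum {α : Type} (S T : Set α) [Fintype S] (R : α → Prop) [DecidablePred R] (f : α → ℤ)
    (hT : ∀ x, x ∈ T ↔ x ∈ S ∧ R x) :
    ∑ᶠ x ∈ T, f x = ∑ x : S, if R x then f x else 0 := by
  classical
  rw [← PCA_sum0 S (fun x => if R x then f x else 0)]
  refine finsum_congr fun x => ?_
  rw [finsum_eq_if, finsum_eq_if]
  by_cases h1 : x ∈ S
  · by_cases h2 : R x
    · rw [if_pos ((hT x).2 ⟨h1, h2⟩), if_pos h1, if_pos h2]
    · rw [if_neg (fun h => h2 ((hT x).1 h).2), if_pos h1, if_neg h2]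
  · rw [if_neg (fun h => h1 ((hT x).1 h).1), if_neg h1]

/-- No character has a dimension with a negative valuation. -/
theorem PCA_neg {Q : Type} [Group Q] (N : Subgroup Q) (β : Q → Q → ℂˣ) (p : ℕ) {j : ℤ}
    (hj : j < 0) : GN N β (fun k => (padicValNat p k : ℤ) = j) = 0 := by
  unfold GN
  have : IsEmpty {σ : Q → ℂ // ∃ k, PIrr N β σ k ∧ (padicValNat p k : ℤ) = j ∧ PInv N β σ} := by
    refine ⟨?_⟩
    rintro ⟨σ, k, -, h, -⟩
    have h1 : (0 : ℤ) ≤ (padicValNat p k : ℤ) := Int.natCast_nonneg _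
    omega
  exact Nat.card_of_isEmpty

theorem PCA (hPEQ : PEQ_stmt) (hPAB : PAB_stmt) (hKML : KML_stmt) (hKPG : KPG_stmt)
    (hGMN : GMN_stmt) (hKLN : KLN_stmt) (hPAL : PAL_stmt) (hB2 : Pool.Agent.DI.B2_stmt) :
    PCA_stmt := by
  classical
  intro G E A _ _ _ _ _ _ X p _ M hM hpM hOp χ hχ hst N hN hmin hpN hInv hV d hd
  obtain ⟨a, ha, hrel⟩ := hPEQ G E A X p M hM hpM hOp χ hχ hst N hmin hInv hV
  have hp : p.Prime := Fact.out
  -- the exponent of `N`
  have hexp : ∀ x ∈ N, x ^ p = 1 := by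
    obtain ⟨r, hr, hr1, k, hk, hcard⟩ := hGMN A N hmin
    have h1 : p ∣ r ^ k := hcard ▸ hpN
    have h2 : p = r := (Nat.prime_dvd_prime_iff_eq hp hr).1 (hp.dvd_of_dvd_pow h1)
    rw [h2]
    exact hr1
  have hN0 : 0 < Nat.card N := Nat.card_pos
  have hv1 : 1 ≤ padicValNat p (Nat.card N) := one_le_padicValNat_of_dvd hN0.ne' hpN
  set Y : Set (Finset (Subgroup G) × (G → ℂ)) := {x | IsPair p M χ x ∧ Vx X x = ⊤} with hY
  have hYfin : Y.Finite := PCA_fin hB2 X p M χ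
  have : Fintype Y := hYfin.fintype
  have hc0 : 0 < GN N 1 (fun k => (padicValNat p k : ℤ) = 0) :=
    (hKLN A N hN).2.1 (fun k => (padicValNat p k : ℤ) = 0) (by simp)
  have hmain := hPAB (Coc A) ((Kc N).subgroupOf (Coc A))
    (fun j β => (GN N β.1 (fun k => (padicValNat p k : ℤ) = j) : ℤ))
    (GN N 1 (fun k => (padicValNat p k : ℤ) = 0) : ℤ) (Nat.card N : ℤ) (ncpl N : ℤ)
    (padicValNat p (Nat.card N) : ℤ) (by exact_mod_cast hc0) (by exact_mod_cast hN0)
    (by exact_mod_cast hv1)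
    (fun j u κ hκ => by
      rw [Subgroup.mem_subgroupOf] at hκ
      have h1 := hKML A N hN u.1 κ.1 hκ (fun k => (padicValNat p k : ℤ) = j)
      exact congrArg Nat.cast h1)
    (fun u => by
      have h1 := hKPG A N hN p hmin.comm hexp u.1 u.2
      rw [h1, Subgroup.mem_subgroupOf]
      split_ifs <;> rfl)
    (fun j hj u => by
      rw [PCA_neg N u.1 p hj]
      rfl)
    Y (fun x => (-1) ^ (x.1.1.card + 1) * (Nat.card (nrm x.1.1) : ℤ)) (fun x => dfc p x.1)
    (fun x => ⟨a x.1, ha x.1 x.2.1 x.2.2⟩)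
    (fun D hD => by
      have h1 := hrel D hD
      rw [PCA_sum0 Y, PCA_sum0 Y] at h1
      have h2 : ∀ x : Y, ∑ᶠ y ∈ {y : Finset (Subgroup G) × (G → ℂ) | IsPair p M χ y ∧
          Vx X y = ⊤ ∧ dfc p x.1 + dfc p y = D},
          ((-1) ^ (x.1.1.card + 1) * (Nat.card (nrm x.1.1) : ℤ)) *
            ((-1) ^ (y.1.card + 1) * (Nat.card (nrm y.1) : ℤ)) =
          ∑ y : Y, if dfc p x.1 + dfc p y.1 = D then
            ((-1) ^ (x.1.1.card + 1) * (Nat.card (nrm x.1.1) : ℤ)) *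
            ((-1) ^ (y.1.1.card + 1) * (Nat.card (nrm y.1.1) : ℤ)) else 0 := by
        intro x
        refine PCA_sum Y _ (fun y => dfc p x.1 + dfc p y = D) _ fun y => ?_
        exact (and_assoc (a := IsPair p M χ y) (b := Vx X y = ⊤)
          (c := dfc p x.1 + dfc p y = D)).symm
      rw [Finset.sum_congr rfl fun x _ => h2 x] at h1
      rw [← h1]
      congr 1
      refine Finset.sum_congr rfl fun x _ => ?_
      rw [PCA_sum0 Y]
      rfl)
    d hd
  have hal := hPAL G E A X p M χ hχ d ⊤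
  rw [PCA_sum Y _ (fun y => dfc p y = d) _ (fun y => by
    rw [Set.mem_ofPred_eq, hY, Set.mem_ofPred_eq]; tauto)] at hal
  rw [hmain] at hal
  have hG0 : (Nat.card G : ℤ) ≠ 0 := by
    have : 0 < Nat.card G := Nat.card_pos
    exact_mod_cast this.ne'
  exact (mul_eq_zero.1 hal).resolve_left hG0

end Pool.Agent.DR
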